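import Pool.Agent.U554.TU.App

/-!
# Semisimplicity of Frobenius: bilinear equations and the cubics `T(x, y, z) = 1`

Let `k` be a finite field and `ℓ` a prime number different from its characteristic. The data
`H b m X`, for the separated schemes `X` of finite type over `k`, consist of a vector space `B` which
stands for the étale (Borel-Moore) homology `H_{m + 2 b}(X̄, ℚ_ℓ(b))`, with an endomorphism `frob`, the
Frobenius. (The type `Reg` contains a second space `A` with a linear map from `A` to the fixed elements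
of `B`, which plays no role here and can be zero.) So `SemisimpleAtOne (H b 0 X)` is the assertion
`SS_b(X)` of the problem. `IsEtaleHomology` lists the known properties which are used.

Let `T` be a trilinear form in three blocks `x`, `y`, `z` of `a₁`, `a₂`, `a₃` variables.

* `zeroS T` is the closed subvariety `Z_T` of `𝔸^(a₂ + a₃)` given by the `a₁` bilinear equations
  `∂T/∂x_i (y, z) = 0`;
* `hypS T` is the smooth affine hypersurface `Y_T : T(x, y, z) = 1` of dimension
  `d = a₁ + a₂ + a₃ - 1`; `H (d - j) 1 (hypS T)` is the group `H^{2 j - 1}(Ȳ_T, ℚ_ℓ(j))`.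
-/

set_option autoImplicit false

open CategoryTheory AlgebraicGeometry MvPolynomial Pool.Agent.Y116.UV Pool.Agent.U554.TU

universe w

namespace Pool.Agent.Results.MP_16ef92_ag.BilinearEquations

variable {K : Type} [Field K]

/-- The Frobenius. -/
def frob (X : Reg.{w} K Unit) : X.B →ₗ[K] X.B := X.act ()

/-- The eigenvalue `1` of the Frobenius is semisimple: `(F - 1)² x = 0` implies `(F - 1) x = 0`. -/
def SemisimpleAtOne (X : Reg.{w} K Unit) : Prop :=
  ∀ x : X.B, frob X (frob X x - x) = frob X x - x → frob X x = x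

/-- `x` is in the generalized eigenspace of the Frobenius for the eigenvalue `1`. -/
def GenInvariant (X : Reg.{w} K Unit) (x : X.B) : Prop := ∃ n : ℕ, ((frob X - 1) ^ n) x = 0

/-- The known properties of the étale homology over a finite field `k`: the properties `IsTheory`
(long exact sequences, homotopy invariance, ...; see `Pool.Agent.U554.TU.Reg`) and

* `point`: `H_{m + 2 b}(Spec k̄, ℚ_ℓ(b)) = 0` for `b < 0` and `m = 0, 1`;
* `torsor`: homotopy invariance for affine bundles;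
* `jouanolou`: smooth separated schemes of finite type have affine bundles with affine total space
  (Jouanolou, Thomason);
* `cover`: for each `X` there is a smooth proper `V` (not connected in general), an open subscheme `X'`
  of `V` and a proper surjective morphism `X' → X` (de Jong); the composite
  `H_{2 b}(V̄, ℚ_ℓ(b)) → H_{2 b}(X̄', ℚ_ℓ(b)) → H_{2 b}(X̄, ℚ_ℓ(b))` is surjective on the generalized
  eigenspaces for the eigenvalue `1`, because the cokernel has weights `> 0` (Deligne). -/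
structure IsEtaleHomology {k : Type} [Field k] (H : ℤ → ℤ → Sch k → Reg.{w} K Unit) : Prop
    extends IsTheory H where
  point : ∀ b m : ℤ, b < 0 → (m = 0 ∨ m = 1) → (H b m (aff k k)).Triv
  torsor : BundleInvariant H
  jouanolou : ∀ X : Sch k, FT True X → Smooth X.hom → HasAffineBundle X
  cover : ∀ X : Sch k, FT True X → ∃ V : Sch k, FT True V ∧ Smooth V.hom ∧ IsProper V.hom ∧
    ∀ b : ℤ, ∃ u : Reg.Hom (H b 0 V) (H b 0 X),
      ∀ x, GenInvariant (H b 0 X) x → ∃ v, GenInvariant (H b 0 V) v ∧ u.g v = x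

/-- The closed subvariety `∂T/∂x_i (y, z) = 0`, `1 ≤ i ≤ a₁`, of the affine space with the coordinates
`y`, `z`. -/
noncomputable def zeroS {k : Type} [Field k] {a₁ a₂ a₃ : ℕ} (T : Fin a₁ → Fin a₂ → Fin a₃ → k) :
    Sch k :=
  aff k (MvPolynomial (Fin a₂ ⊕ Fin a₃) k ⧸
    Ideal.span (Set.range fun i => bil (Fin a₂) (Fin a₃) (T i)))

lemma equi' {X Y : Reg.{w} K Unit} (u : Reg.Hom X Y) (x : X.B) :
    u.g (frob X x) = frob Y (u.g x) := u.equi () x

lemma inherited : Inherited (SemisimpleAtOne (K := K)) := by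
  rintro X Y ⟨s, r, -, h2⟩ hY x hx
  have h3 := congrArg s.g hx
  rw [equi', map_sub, equi'] at h3
  have h4 := hY _ h3
  rw [← equi'] at h4
  have h5 := congrArg r.g h4
  rwa [h2, h2] at h5

/-- Under semisimplicity the generalized eigenspace is the eigenspace. -/
lemma fixed_of_gen {X : Reg.{w} K Unit} (h : SemisimpleAtOne X) :
    ∀ (n : ℕ) (x : X.B), ((frob X - 1) ^ n) x = 0 → frob X x = x := by
  intro n
  induction n with
  | zero =>
    intro x hx
    have : x = 0 := hx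
    rw [this, map_zero]
  | succ n ih =>
    intro x hx
    have h1 : frob X ((frob X - 1) x) = (frob X - 1) x := by
      apply ih
      rw [pow_succ] at hx
      exact hx
    exact h x h1

lemma semisimple_of_cover {X V : Reg.{w} K Unit} (u : Reg.Hom V X)
    (hu : ∀ x, GenInvariant X x → ∃ v, GenInvariant V v ∧ u.g v = x) (hV : SemisimpleAtOne V) :
    SemisimpleAtOne X := by
  intro x hx
  obtain ⟨v, ⟨n, hn⟩, rfl⟩ := hu x ⟨2, by
    rw [pow_two]
    change frob X (frob X x - x) - (frob X x - x) = 0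
    rw [hx, sub_self]⟩
  rw [← equi', fixed_of_gen hV n v hn]

section

variable {k : Type} [Field k] {H : ℤ → ℤ → Sch k → Reg.{w} K Unit}

/-- The groups of the affine space of dimension `r` in the weights `b < r` and the degrees `0`, `1`. -/
lemma space_triv (hH : IsEtaleHomology H) (r : ℕ) (b m : ℤ) (hb : b < r) (hm : m = 0 ∨ m = 1) :
    (H b m (aff k (MvPolynomial (Fin r) k))).Triv := by
  have h := hH.space k r (b - r) m
  rw [sub_add_cancel] at h
  exact h.factor'.triv (hH.point _ m (by omega) hm)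

/-- The bilinear equations and the hypersurface:
`H_{2 (a₂ + a₃ - j)}(Z̄_T, ℚ_ℓ(a₂ + a₃ - j)) = H^{2 j - 1}(Ȳ_T, ℚ_ℓ(j))` for `j ≥ 1`. -/
lemma zero_hyp (hH : IsEtaleHomology H) {a₁ a₂ a₃ : ℕ} (T : Fin a₁ → Fin a₂ → Fin a₃ → k) (j : ℕ)
    (hj : 1 ≤ j) :
    Reg.Iso (H (a₁ + a₂ + a₃ - 1 - j) 1 (hypS T)) (H (a₂ + a₃ - j) 0 (zeroS T)) := by
  have hB := hH.toIsTheory
  let f : Fin a₁ → MvPolynomial (Fin a₂ ⊕ Fin a₃) k := fun i => bil (Fin a₂) (Fin a₃) (T i)
  have e : MvPolynomial (Fin a₂ ⊕ Fin a₃) k ≃ₐ[k] MvPolynomial (Fin (a₂ + a₃)) k :=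
    renameEquiv k finSumFinEquiv
  have h0 : (H (a₂ + a₃ - j) 0 (aff k (MvPolynomial (Fin a₂ ⊕ Fin a₃) k))).Triv :=
    (hB.alg e _ 0).factor.triv (space_triv hH _ _ 0 (by push_cast; omega) (Or.inl rfl))
  have h1 : (H (a₂ + a₃ - j) (0 + 1) (aff k (MvPolynomial (Fin a₂ ⊕ Fin a₃) k))).Triv := by
    rw [zero_add]
    exact (hB.alg e _ 1).factor.triv (space_triv hH _ _ 1 (by push_cast; omega) (Or.inr rfl))
  have h2 := hB.closed _ _ (ft_aff True) (triple_ne f) h0 h1
  rw [zero_add] at h2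
  have h3 := (hyp_bundle hB T (a₂ + a₃ - j) 1).symm
  rw [show (a₂ + a₃ - j + a₁ - 1 : ℤ) = a₁ + a₂ + a₃ - 1 - j from by ring] at h3
  exact h3.trans h2

end

/-- **Semisimplicity of the eigenvalue 1, bilinear equations, and the cubic hypersurfaces
`T(x, y, z) = 1`.** Let `k` be a finite field, `ℓ` a prime number, and let `H b m X` have the known
properties of the étale homology `H_{m + 2 b}(X̄, ℚ_ℓ(b))` of the separated schemes `X` of finite type
over `k`, with the action of the Frobenius. The following assertions are equivalent: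
* (Q1 for `k` and `ℓ`) `SS_b(X)` for all `X` and all `b`;
* `SS_b(V)` for all smooth proper `V` and all `b`;
* `SS_b(Z_T)` for all `b` and all closed subvarieties `Z_T` of `𝔸^(a₂ + a₃)` which are given by a finite
  number of bilinear equations in `a₂ + a₃` variables;
* the eigenvalue `1` of the Frobenius on `H^{2 j - 1}(Ȳ_T, ℚ_ℓ(j))` is semisimple for all trilinear forms
  `T` and all `j ≥ 1`.
If `k` is a prime field, the bilinear equations with coefficients `0` and `1` are sufficient in the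
third assertion, and the hypersurfaces `∑_{(i, j, k) ∈ S} x_i y_j z_k = 1`, `S` a finite set of triples,
in the last one. -/
theorem result (k : Type) [Field k] [Finite k] (ℓ : ℕ) [Fact ℓ.Prime]
    (H : ℤ → ℤ → Sch k → Reg.{w} ℚ_[ℓ] Unit) (hH : IsEtaleHomology H) :
    List.TFAE [
      ∀ (X : Sch k) (b : ℤ), FT True X → SemisimpleAtOne (H b 0 X),
      ∀ (V : Sch k) (b : ℤ), FT True V → Smooth V.hom → IsProper V.hom →
        SemisimpleAtOne (H b 0 V),
      ∀ (a₁ a₂ a₃ : ℕ) (T : Fin a₁ → Fin a₂ → Fin a₃ → k) (b : ℤ),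
        SemisimpleAtOne (H b 0 (zeroS T)),
      ∀ (a₁ a₂ a₃ : ℕ) (T : Fin a₁ → Fin a₂ → Fin a₃ → k) (j : ℕ), 1 ≤ j →
        SemisimpleAtOne (H (a₁ + a₂ + a₃ - 1 - j) 1 (hypS T))] ∧
    (Function.Surjective (Int.cast : ℤ → k) →
      List.TFAE [
        ∀ (X : Sch k) (b : ℤ), FT True X → SemisimpleAtOne (H b 0 X),
        ∀ (a₁ a₂ a₃ : ℕ) (T : Fin a₁ → Fin a₂ → Fin a₃ → k), (∀ i j l, T i j l = 0 ∨ T i j l = 1) →
          ∀ b : ℤ, SemisimpleAtOne (H b 0 (zeroS T)),
        ∀ (a₁ a₂ a₃ : ℕ) (S : Finset (Fin a₁ × Fin a₂ × Fin a₃)) (j : ℕ), 1 ≤ j →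
          SemisimpleAtOne (H (a₁ + a₂ + a₃ - 1 - j) 1 (tripS k S))]) := by
  have hT := hH.toIsTheory
  have hV : (∀ (V : Sch k) (b : ℤ), FT True V → Smooth V.hom → IsProper V.hom →
      SemisimpleAtOne (H b 0 V)) → ∀ (X : Sch k) (b : ℤ), FT True X →
      SemisimpleAtOne (H b 0 X) := by
    intro h X b hX
    obtain ⟨V, h1, h2, h3, h4⟩ := hH.cover X hX
    obtain ⟨u, hu⟩ := h4 b
    exact semisimple_of_cover u hu (h V b h1 h2 h3)
  have hy : ∀ (S : Set k), 0 ∈ S → 1 ∈ S → Presents S →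
      (∀ (a₁ a₂ a₃ : ℕ) (T : Fin a₁ → Fin a₂ → Fin a₃ → k), (∀ i j l, T i j l ∈ S) →
        ∀ j : ℕ, 1 ≤ j → SemisimpleAtOne (H (a₁ + a₂ + a₃ - 1 - j) 1 (hypS T))) →
      ∀ (X : Sch k) (b : ℤ), FT True X → SemisimpleAtOne (H b 0 X) := by
    intro S h0 h1 hS h
    refine hV fun V b h2 h3 _ => ?_
    refine bundle_of_affine hH.torsor inherited 0 ?_ V h2 (hH.jouanolou V h2 h3) b
    intro A _ _ _ b
    exact affine_of_hyp hT inherited h0 h1 hS 0 (fun a₁ a₂ a₃ T hT' j hj => h a₁ a₂ a₃ T hT' j hj)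
      A b
  have hz : ∀ (S : Set k), (∀ (a₁ a₂ a₃ : ℕ) (T : Fin a₁ → Fin a₂ → Fin a₃ → k),
      (∀ i j l, T i j l ∈ S) → ∀ b : ℤ, SemisimpleAtOne (H b 0 (zeroS T))) →
      (∀ (a₁ a₂ a₃ : ℕ) (T : Fin a₁ → Fin a₂ → Fin a₃ → k), (∀ i j l, T i j l ∈ S) →
        ∀ j : ℕ, 1 ≤ j → SemisimpleAtOne (H (a₁ + a₂ + a₃ - 1 - j) 1 (hypS T))) := by
    intro S h a₁ a₂ a₃ T hT' j hj
    exact (inherited.iff (zero_hyp hH T j hj)).mpr (h a₁ a₂ a₃ T hT' _)
  refine ⟨?_, ?_⟩
  · tfae_have 1 → 2 := fun h V b h1 _ _ => h V b h1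
    tfae_have 1 → 3 := fun h a₁ a₂ a₃ T b => h _ _ (ft_aff True)
    tfae_have 3 → 4 := fun h a₁ a₂ a₃ T j hj =>
      hz Set.univ (fun a₁ a₂ a₃ T _ b => h a₁ a₂ a₃ T b) a₁ a₂ a₃ T (fun _ _ _ => trivial) j hj
    tfae_have 4 → 1 := fun h =>
      hy Set.univ trivial trivial presents_univ fun a₁ a₂ a₃ T _ j hj => h a₁ a₂ a₃ T j hj
    tfae_have 2 → 1 := hV
    tfae_finish
  · intro hk
    tfae_have 1 → 2 := fun h a₁ a₂ a₃ T _ b => h _ _ (ft_aff True)
    tfae_have 2 → 3 := by
      intro h a₁ a₂ a₃ S j hj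
      obtain ⟨T, hT', hS⟩ := trip_hyp (R := k) S
      rw [← hS]
      exact hz {0, 1} (fun a₁ a₂ a₃ T hT' b => h a₁ a₂ a₃ T hT' b) a₁ a₂ a₃ T hT' j hj
    tfae_have 3 → 1 := fun h =>
      hy {0, 1} (Or.inl rfl) (Or.inr rfl) (presents_zero_one hk) fun a₁ a₂ a₃ T hT' j hj => by
        obtain ⟨S, hS⟩ := hyp_zero_one T hT'
        rw [hS]
        exact h a₁ a₂ a₃ S j hj
    tfae_finish

end Pool.Agent.Results.MP_16ef92_ag.BilinearEquations
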