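import Pool.Agent.U926.FM.Gen
import Pool.Agent.N876.FL.Crit

/-!
# Semisimplicity of the eigenvalue `1` of Frobenius on products of cyclic coverings and arbitrary varieties

Let `k` be the field with `q = c ^ f` elements and let `V_1, …, V_r` be smooth projective varieties over `k`, of
any dimensions `n_i ≥ 1`, which are models of cyclic coverings

  `w ^ N_i = ∏ l_{i,k} (x) ^ a_{i,k}`,  `N_i ∣ q - 1`,

of the projective spaces, branched along hyperplanes `l_{i,k} = 0`, with exponents prime to `N_i`. Let `Z` be
**any variety over `k` of dimension at most `λ`: not necessarily smooth, proper, reduced or irreducible**.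

The Borel-Moore homology `H_m(Z)` with coefficients in `ℚ_ℓ` (extended to `ℂ`) is dual to the cohomology with
compact supports, and the eigenvalues `β` of the (arithmetic) Frobenius element on `H_m(Z)` are the
eigenvalues of the geometric Frobenius on `H_c^m(Z)`: by the integrality theorem of Deligne they are
algebraic integers, and `q ^ (m - λ)` divides them if `m > λ` (`IsOfDimension`). Nothing is used on their
absolute values. The homology of `V_i` is the sum of a space with a basis of classes of cycles `k` over the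
field `k`, of dimension `dim k` (the invariants of the covering group), and of a space `W_i` in degree `n_i`
without invariants; the trace formula of Grothendieck and Lefschetz holds for the compositions of the
Frobenius with the elements of the covering group (`IsCyclicCovering`). **It is not known, and not assumed,
that the Frobenius is semisimple on `W_i`**.

`SS_j(Z)` over the extension of degree `m` of `k` (`IsSemisimpleAt`) says: each `v` in `H_{2 j}(Z)` which is in
the generalised eigenspace of the `m`-th power of the Frobenius with the eigenvalue `q ^ (m j)` is an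
eigenvector; after the twist by `j` this is the semisimplicity of the eigenvalue `1` on
`H_{2 j}(Z, ℚ_ℓ(j))`. The homology of `V × Z`, `V = V_1 × ⋯ × V_r`, is given by the formula of Künneth.

For an integer `j` let `weight V j` be the sum of the fractional parts of `j a_k / N`, replaced by its
mean over the orbit `j, c j, …, c ^ (f - 1) j`. The condition `IsSmall N λ` says: for every nonempty
set `I` of indices and all `j_i` not divisible by `N_i` (`i ∈ I`) there is a `u` prime to `N` with
`∑_{i ∈ I} weight V_i (u j_i) + λ / 2 < ∑_{i ∈ I} (n_i / 2 + 1)`. For example (part 3) it is true if the `N_i`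
are different prime numbers, `c ≡ 1` modulo all `N_i`, `∑_k a_{i,k} = N_i` and `n_i > λ` for all `i`.

**Theorem.** Assume `IsSmall N λ`, where `N` is a common multiple of the `N_i`, and let `Z` be any variety of
dimension at most `λ`. Over every finite extension of `k`:

* the generalised Tate classes of dimension `w` on `V × Z` (the elements of degree `2 w` of the generalised
  eigenspace of the eigenvalue `q ^ w`) are exactly the linear combinations of the products
  `e_1 × ⋯ × e_r × b` of the classes of cycles on the `V_i` and of generalised Tate classes `b` of dimension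
  `w - ∑ dim e_i` on `Z`;
* **`SS_w(V × Z)` is true if and only if `SS_{w - ∑ dim e_i}(Z)` is true for all families of classes `e_i` with
  `∑ dim e_i ≤ w`**; in particular `SS_w(V × Z)` is true for all `w` if and only if `SS_j(Z)` is true for all `j`.

For instance `SS_w(V × Z)` is true for all `w` if `Z` is a curve with any singularities, open or not, or a
point: `SS_w(V)` is true for all products `V` with this condition.

The semisimplicity is not formal: a generalised eigenvector for `q ^ w` could come from all eigenvalues `α` of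
`V` and `β` of `Z` with `α β = q ^ w`, and `α` is a nontrivial product of eigenvalues of coverings, where
semisimplicity is unknown. By the theorem of Stickelberger on Gauss sums there is an embedding of the
algebraic numbers into an algebraic closure of the field of `c`-adic numbers such that the valuation of
`α β` is larger than that of `q ^ w`. For singular and open varieties the absolute value of an eigenvalue does
not determine the degree; the degree is kept by a grading operator with a transcendental parameter
(`Pool/Agent/U926/FM/Gen`).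

The trace formula, the decomposition of the homology of the `V_i` and the theorem of Deligne are hypotheses.

helper926; built on the library of the starting files: helper876 (`N876/TC`, `N876/FL`: slopes of the
eigenvalues on cyclic coverings, operators on tensor products) and the estimates of sums over hyperplane
arrangements by Gauss sums (helper528 and helpers 800, 883, 135, 563, 271, 540, 400, 999, 782, 605, 346).
-/

set_option autoImplicit false

open Finset Polynomial TensorProduct

namespace Pool.Agent.Results.MP_16ef92_ag.CoveringsTimesAnyVariety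

/-- A cyclic covering `w ^ N = ∏ l_k (x) ^ a_k` of the projective space of dimension `n`, and a root of
unity `z`. -/
structure Covering (κ : Type) [Field κ] : Type where
  N : ℕ
  n : ℕ
  s : ℕ
  l : Fin s → Fin (n + 1) → κ
  a : Fin s → ℕ
  z : κ

/-- `z` has order `N ≥ 2`, the exponents are prime to `N` and their sum is divisible by `N`. -/
structure Covering.IsAdmissible {κ : Type} [Field κ] (X : Covering κ) : Prop where
  two_le : 2 ≤ X.N
  root : IsPrimitiveRoot X.z X.N
  coprime : ∀ k, (X.a k).Coprime X.N
  dvd : X.N ∣ ∑ k, X.a k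

/-- The value of the form `∏ l_k ^ a_k` at a vector with coordinates in `L`. -/
def Covering.value {κ : Type} [Field κ] (X : Covering κ) (L : Type) [Field L] [Algebra κ L]
    (x : Fin (X.n + 1) → L) : L :=
  ∏ k, (∑ t, algebraMap κ L (X.l k t) * x t) ^ X.a k

/-- The number of vectors over `L` where the form is not zero. -/
noncomputable def Covering.openCount {κ : Type} [Field κ] (X : Covering κ) (L : Type) [Field L]
    [Algebra κ L] : ℕ :=
  Set.ncard {x : Fin (X.n + 1) → L | X.value L x ≠ 0}

/-- The number of vectors over `L` where the form is not zero and its power with the exponent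
`(|L| - 1) / N` is `z ^ i`. -/
noncomputable def Covering.fixCount {κ : Type} [Field κ] (X : Covering κ) (L : Type) [Field L]
    [Fintype L] [Algebra κ L] (i : ℕ) : ℕ :=
  Set.ncard {x : Fin (X.n + 1) → L | X.value L x ≠ 0 ∧
    (X.value L x) ^ ((Fintype.card L - 1) / X.N) = algebraMap κ L X.z ^ i}

/-- `W` is the part without invariants of the homology of degree `n` of a smooth projective model
of the covering, with the Frobenius `Φ` (which is injective) and the generator `g` of the covering group.
The trace of `Φ ^ [L : κ] g ^ i` is up to the sign the difference of the number of fixed points over the open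
set `∏ l_k ≠ 0` of projective space (`N` points over each point where the form has the power residue
symbol `z ^ i`) and of the number of the points of this open set. -/
structure IsCyclicCovering {κ : Type} [Field κ] (X : Covering κ) {W : Type} [AddCommGroup W]
    [Module ℂ W] (Φ g : Module.End ℂ W) : Prop where
  injective : ∀ w, Φ w = 0 → w = 0
  commute : Commute Φ g
  order : g ^ X.N = 1
  invariants : ∀ w, g w = w → w = 0
  lefschetz : ∀ (L : Type) [Field L] [Fintype L] [Algebra κ L] (i : ℕ),
    ((Fintype.card L : ℂ) - 1) *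
        ((-1) ^ X.n * LinearMap.trace ℂ W (Φ ^ Module.finrank κ L * g ^ i)) =
      (X.N : ℂ) * (X.fixCount L i : ℂ) - (X.openCount L : ℂ)

/-- The mean over `j, c j, …, c ^ (f - 1) j` of the sum of the fractional parts of `j a_k / N`. -/
def Covering.weight {κ : Type} [Field κ] (X : Covering κ) (c f j : ℕ) : ℚ :=
  (∑ k, ∑ t ∈ range f, (((j * X.a k * c ^ t) % X.N : ℕ) : ℚ)) / (f * X.N)

/-- The condition on the exponents. -/
def IsSmall {κ : Type} [Field κ] {ι : Type} (X : ι → Covering κ) (c f N lam : ℕ) : Prop :=
  ∀ I : Finset ι, I.Nonempty → ∀ j : ι → ℕ, (∀ i ∈ I, ¬ (X i).N ∣ j i) →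
    ∃ u : ℕ, u.Coprime N ∧
      ∑ i ∈ I, (X i).weight c f (u * j i) + (lam : ℚ) / 2 < ∑ i ∈ I, (((X i).n : ℚ) / 2 + 1)

/-- The theorem of Deligne for a variety of dimension at most `lam`, whose homology of degree `deg t` is
`B t`: the eigenvalues of the Frobenius on `B t` are algebraic integers, divisible by
`q ^ (deg t - lam)`. -/
def IsOfDimension (q lam : ℕ) {T : Type} (deg : T → ℕ) {B : T → Type} [∀ t, AddCommGroup (B t)]
    [∀ t, Module ℂ (B t)] (Φ : ∀ t, Module.End ℂ (B t)) : Prop :=
  ∀ t β, (Φ t).HasEigenvalue β → IsIntegral ℤ (β / (q : ℂ) ^ (deg t - lam))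

/-- `v` has the degree `m` in the tensor product of graded spaces, where `D i e x` and `D' e y` mean that `x`
and `y` have the degree `e`. -/
def ProductDegree {ι : Type} [Fintype ι] {M : ι → Type} [∀ i, AddCommGroup (M i)]
    [∀ i, Module ℂ (M i)] {U : Type} [AddCommGroup U] [Module ℂ U] (D : ∀ i, ℕ → M i → Prop)
    (D' : ℕ → U → Prop) (m : ℕ) (v : (⨂[ℂ] i, M i) ⊗[ℂ] U) : Prop :=
  v ∈ Submodule.span ℂ {v | ∃ (x : ∀ i, M i) (e : ι → ℕ) (y : U) (e' : ℕ),
    (∀ i, D i (e i) (x i)) ∧ D' e' y ∧ ∑ i, e i + e' = m ∧ (⨂ₜ[ℂ] i, x i) ⊗ₜ[ℂ] y = v}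

section product

variable {ι : Type} [Fintype ι] {K W : ι → Type}
  [∀ i, AddCommGroup (W i)] [∀ i, Module ℂ (W i)] {T : Type} {B : T → Type}
  [∀ t, AddCommGroup (B t)] [∀ t, Module ℂ (B t)]

/-- The homology of the product of the `V_i` and of `Z` (Künneth formula), with complex
coefficients. -/
abbrev ProductHomology {ι : Type} (K W : ι → Type) [∀ i, AddCommGroup (W i)]
    [∀ i, Module ℂ (W i)] {T : Type} (B : T → Type) [∀ t, AddCommGroup (B t)]
    [∀ t, Module ℂ (B t)] : Type :=
  (⨂[ℂ] i, ((K i → ℂ) × W i)) ⊗[ℂ] (∀ t, B t)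

/-- The Frobenius on the homology of `V_i`: on the classes of cycles of dimension `dim k` it is the power of
`q` with this exponent, and on `W` it is `Φ`. -/
noncomputable def homologyFrobenius {K W : Type} [AddCommGroup W] [Module ℂ W] (q : ℕ)
    (dim : K → ℕ) (Φ : Module.End ℂ W) : Module.End ℂ ((K → ℂ) × W) :=
  LinearMap.prodMap (LinearMap.pi fun k => ((q : ℂ) ^ dim k) • LinearMap.proj k) Φ

/-- The Frobenius on the homology of `Z`, which is the sum of the `B t`. -/
noncomputable def frobeniusZ (ΦZ : ∀ t, Module.End ℂ (B t)) : Module.End ℂ (∀ t, B t) :=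
  LinearMap.pi fun t => ΦZ t ∘ₗ LinearMap.proj t

/-- The Frobenius on the homology of the product. -/
noncomputable def productFrobenius (q : ℕ) (dim : ∀ i, K i → ℕ) (Φ : ∀ i, Module.End ℂ (W i))
    (ΦZ : ∀ t, Module.End ℂ (B t)) : Module.End ℂ (ProductHomology K W B) :=
  TensorProduct.map
    (PiTensorProduct.map fun i => homologyFrobenius q (dim i) (Φ i)) (frobeniusZ ΦZ)

/-- The class `x` in the homology of `V_i` is of degree `e`: classes of cycles of dimension `dim k` are of
degree `2 dim k`, and `W` is of degree `n`. -/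
def IsOfDegree {K W : Type} [AddCommGroup W] (dim : K → ℕ) (n e : ℕ) (x : (K → ℂ) × W) : Prop :=
  (∀ k, x.1 k ≠ 0 → 2 * dim k = e) ∧ (x.2 ≠ 0 → n = e)

/-- The class `b` in the homology of `Z` is of degree `e`. -/
def IsOfDegreeZ (deg : T → ℕ) (e : ℕ) (b : ∀ t, B t) : Prop := ∀ t, deg t ≠ e → b t = 0

/-- The class `v` in the homology of the product is of degree `m`. -/
def IsOfDegreeX (dim : ∀ i, K i → ℕ) (n : ι → ℕ) (deg : T → ℕ) (m : ℕ)
    (v : ProductHomology K W B) : Prop :=
  ProductDegree (fun i => IsOfDegree (dim i) (n i)) (IsOfDegreeZ deg) m v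

/-- The product of the classes of the cycles with the indices `k i` and of the class `b` on `Z`. -/
noncomputable def product [∀ i, DecidableEq (K i)] (k : ∀ i, K i) (b : ∀ t, B t) :
    ProductHomology K W B :=
  (⨂ₜ[ℂ] i, ((Pi.single (k i) 1, 0) : (K i → ℂ) × W i)) ⊗ₜ[ℂ] b

end product

/-- `v` is a generalised Tate class of dimension `j` over the extension of degree `m`: it is of degree `2 j`,
and in the generalised eigenspace of `Φ ^ m` for the eigenvalue `q ^ (m j)`. -/
def IsGeneralisedTateClass (q m : ℕ) {V : Type} [AddCommGroup V] [Module ℂ V]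
    (degree : ℕ → V → Prop) (Φ : Module.End ℂ V) (j : ℕ) (v : V) : Prop :=
  degree (2 * j) v ∧ v ∈ (Φ ^ m).maxGenEigenspace ((q : ℂ) ^ (m * j))

/-- The statement `SS_j` over the extension of degree `m`: the eigenvalue `1` of the Frobenius is semisimple on
the homology of degree `2 j`, twisted by `j`. -/
def IsSemisimpleAt (q m : ℕ) {V : Type} [AddCommGroup V] [Module ℂ V]
    (degree : ℕ → V → Prop) (Φ : Module.End ℂ V) (j : ℕ) : Prop :=
  ∀ v, IsGeneralisedTateClass q m degree Φ j v → (Φ ^ m) v = (q : ℂ) ^ (m * j) • v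

/-- `v` is a linear combination of products of classes of cycles, with the index `k` and the dimension
`dim k`, and of classes `b` such that `P (w - dim k) b` holds. -/
def IsCombination {J U V : Type} [AddCommGroup V] [Module ℂ V] (prod : J → U → V) (dim : J → ℕ)
    (P : ℕ → U → Prop) (w : ℕ) (v : V) : Prop :=
  v ∈ Submodule.span ℂ {v | ∃ (k : J) (b : U), dim k ≤ w ∧ P (w - dim k) b ∧ prod k b = v}

/-- The theorem on the semisimplicity for products with all varieties of dimension at most `lam`, for all
data over `κ`. -/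
def SemisimplicityTheorem {κ : Type} [Field κ] [Fintype κ] {ι : Type} [Fintype ι] [DecidableEq ι]
    (X : ι → Covering κ) (lam : ℕ) : Prop :=
  ∀ {K W : ι → Type} [∀ i, Fintype (K i)] [∀ i, DecidableEq (K i)] [∀ i, AddCommGroup (W i)]
    [∀ i, Module ℂ (W i)] [∀ i, FiniteDimensional ℂ (W i)] (dim : ∀ i, K i → ℕ)
    (Φ g : ∀ i, Module.End ℂ (W i)), (∀ i, IsCyclicCovering (X i) (Φ i) (g i)) →
  ∀ {T : Type} [Fintype T] [DecidableEq T] (deg : T → ℕ) {B : T → Type} [∀ t, AddCommGroup (B t)]
    [∀ t, Module ℂ (B t)] [∀ t, FiniteDimensional ℂ (B t)] (ΦZ : ∀ t, Module.End ℂ (B t)),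
    IsOfDimension (Fintype.card κ) lam deg ΦZ →
  ∀ m : ℕ, 0 < m →
    (∀ (w : ℕ) (v : ProductHomology K W B),
      IsGeneralisedTateClass (Fintype.card κ) m (IsOfDegreeX dim (fun i => (X i).n) deg)
          (productFrobenius (Fintype.card κ) dim Φ ΦZ) w v ↔
        IsCombination product (fun k : ∀ i, K i => ∑ i, dim i (k i))
          (IsGeneralisedTateClass (Fintype.card κ) m (IsOfDegreeZ deg) (frobeniusZ ΦZ)) w v) ∧
    (∀ w : ℕ, IsSemisimpleAt (V := ProductHomology K W B) (Fintype.card κ) m
        (IsOfDegreeX dim (fun i => (X i).n) deg) (productFrobenius (Fintype.card κ) dim Φ ΦZ) w ↔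
      ∀ k : ∀ i, K i, ∑ i, dim i (k i) ≤ w →
        IsSemisimpleAt (V := ∀ t, B t) (Fintype.card κ) m (IsOfDegreeZ deg) (frobeniusZ ΦZ)
          (w - ∑ i, dim i (k i))) ∧
    ((∀ i, ∃ k, dim i k = 0) →
      ((∀ w : ℕ, IsSemisimpleAt (V := ProductHomology K W B) (Fintype.card κ) m
        (IsOfDegreeX dim (fun i => (X i).n) deg) (productFrobenius (Fintype.card κ) dim Φ ΦZ) w) ↔
      ∀ j : ℕ, IsSemisimpleAt (V := ∀ t, B t) (Fintype.card κ) m (IsOfDegreeZ deg)
        (frobeniusZ ΦZ) j))

section proofs

open Pool.Agent.N876.TC (MM tot ev cmp co cmp_tmul)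
open Pool.Agent.U926.FM (gr pm)

variable {ι : Type} [Fintype ι] {K W : ι → Type}
  [∀ i, AddCommGroup (W i)] [∀ i, Module ℂ (W i)] {T : Type} {B : T → Type}
  [∀ t, AddCommGroup (B t)] [∀ t, Module ℂ (B t)]

theorem gr_degree {dim : ∀ i, K i → ℕ} {n : ι → ℕ} {deg : T → ℕ} {m : ℕ}
    {v : ProductHomology K W B} (hv : IsOfDegreeX dim n deg m v) (θ : ℂ) :
    gr dim n deg θ v = θ ^ m • v := by
  unfold IsOfDegreeX ProductDegree at hv
  induction hv using Submodule.span_induction with
  | mem v h =>
    obtain ⟨x, e, y, e', hx, hy, hm, rfl⟩ := h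
    have h1 : gr dim n deg θ ((⨂ₜ[ℂ] i, x i) ⊗ₜ[ℂ] y) =
        (⨂ₜ[ℂ] i, tot (θ ^ 2) (dim i) ((θ ^ n i) • (1 : Module.End ℂ (W i))) (x i)) ⊗ₜ[ℂ]
          (pm (fun t => (θ ^ deg t) • (1 : Module.End ℂ (B t))) y) := by
      unfold gr MM
      rw [TensorProduct.map_tmul, PiTensorProduct.map_tprod]
    have h2 : ∀ i, tot (θ ^ 2) (dim i) ((θ ^ n i) • (1 : Module.End ℂ (W i))) (x i) =
        θ ^ e i • x i := by
      intro i
      obtain ⟨hx1, hx2⟩ := hx i
      refine Prod.ext ?_ ?_
      · funext k
        show (θ ^ 2) ^ dim i k * (x i).1 k = θ ^ e i * (x i).1 k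
        by_cases h : (x i).1 k = 0
        · rw [h, mul_zero, mul_zero]
        · rw [← pow_mul, hx1 k h]
      · show (θ ^ n i) • (x i).2 = θ ^ e i • (x i).2
        by_cases h : (x i).2 = 0
        · rw [h, smul_zero, smul_zero]
        · rw [hx2 h]
    have h3 : pm (fun t => (θ ^ deg t) • (1 : Module.End ℂ (B t))) y = θ ^ e' • y := by
      funext t
      show (θ ^ deg t) • y t = θ ^ e' • y t
      by_cases h : deg t = e'
      · rw [h]
      · rw [hy t h, smul_zero, smul_zero]
    rw [h1, h3]
    simp only [h2]
    rw [MultilinearMap.map_smul_univ, TensorProduct.smul_tmul_smul, prod_pow_eq_pow_sum, ← pow_add,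
      hm]
  | zero => rw [map_zero, smul_zero]
  | add x y _ _ hx hy => rw [map_add, hx, hy, smul_add]
  | smul r x _ hx => rw [map_smul, hx, smul_comm]

theorem product_degree [∀ i, DecidableEq (K i)]
    {dim : ∀ i, K i → ℕ} {n : ι → ℕ} {deg : T → ℕ} {w : ℕ} {k : ∀ i, K i} {b : ∀ t, B t}
    (hk : ∑ i, dim i (k i) ≤ w) (hb : IsOfDegreeZ deg (2 * (w - ∑ i, dim i (k i))) b) :
    IsOfDegreeX dim n deg (2 * w) (product k b : ProductHomology K W B) := by
  refine Submodule.subset_span ⟨fun i => (Pi.single (k i) 1, 0), fun i => 2 * dim i (k i), b,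
    2 * (w - ∑ i, dim i (k i)), fun i => ⟨fun k' hk' => ?_, fun h => absurd rfl h⟩, hb, ?_, rfl⟩
  · by_cases h : k' = k i
    · rw [h]
    · exact absurd (Pi.single_eq_of_ne h _) hk'
  · rw [← mul_sum]
    omega

theorem pair_pow (q : ℕ) (dim : ∀ i, K i → ℕ) (Φ : ∀ i, Module.End ℂ (W i))
    (ΦZ : ∀ t, Module.End ℂ (B t)) [∀ i, DecidableEq (K i)] (m : ℕ) (k : ∀ i, K i)
    (b : ∀ t, B t) :
    (productFrobenius q dim Φ ΦZ ^ m) (product k b : ProductHomology K W B) =
      ((q : ℂ) ^ (∑ i, dim i (k i))) ^ m • (product k ((frobeniusZ ΦZ ^ m) b)) :=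
  Pool.Agent.N876.TC.MM_ev_pow (q : ℂ) dim Φ (frobeniusZ ΦZ) k m b

theorem product_injective [∀ i, DecidableEq (K i)] (k : ∀ i, K i) {b b' : ∀ t, B t}
    (h : (product k b : ProductHomology K W B) = product k b') : b = b' := by
  have h1 : ∀ b : ∀ t, B t, cmp k (product k b : ProductHomology K W B) = b := by
    intro b
    unfold product
    rw [cmp_tmul, Pool.Agent.N876.TC.co_tprod]
    have h1 : ∏ i, ((Pi.single (k i) 1, 0) : (K i → ℂ) × W i).1 (k i) = 1 :=
      prod_eq_one fun i _ => Pi.single_eq_same _ _
    rw [h1, one_smul]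
  rw [← h1 b, h, h1]

end proofs

/-- **Semisimplicity of the eigenvalue `1` of the Frobenius for the products of cyclic coverings branched along
hyperplanes with arbitrary varieties of small dimension.** -/
theorem result (c : ℕ) [Fact c.Prime] (κ : Type) [Field κ] [Fintype κ] [CharP κ c] (f : ℕ)
    (hf : Fintype.card κ = c ^ f) {ι : Type} [Fintype ι] [DecidableEq ι] (X : ι → Covering κ)
    (hX : ∀ i, (X i).IsAdmissible) (lam : ℕ) :
    -- 1. the theorem on the semisimplicity
    (∀ N : ℕ, 0 < N → (∀ i, (X i).N ∣ N) → IsSmall X c f N lam → SemisimplicityTheorem X lam) ∧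
    -- 2. pairwise coprime degrees: the proper divisors are sufficient
    ((∀ i i', i ≠ i' → ((X i).N).Coprime (X i').N) →
      (∀ i g, g ∣ (X i).N → g < (X i).N →
        (X i).weight c f g + (lam : ℚ) / 2 < ((X i).n : ℚ) / 2 + 1) →
      IsSmall X c f (∏ i, (X i).N) lam) ∧
    -- 3. different prime degrees, `c ≡ 1`
    ((∀ i, ((X i).N).Prime) → (∀ i i', i ≠ i' → (X i).N ≠ (X i').N) →
      (∀ i, c % (X i).N = 1) → (∀ i, ∑ k, (X i).a k = (X i).N) → (∀ i, lam < (X i).n) →
      IsSmall X c f (∏ i, (X i).N) lam) := by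
  have hf0 : 0 < f := by
    rcases Nat.eq_zero_or_pos f with h | h
    · rw [h, pow_zero] at hf
      have := Fintype.one_lt_card (α := κ)
      omega
    · exact h
  have hN0 : ∀ i, 0 < (X i).N := fun i => by have := (hX i).two_le; omega
  have h2 : ((∀ i i', i ≠ i' → ((X i).N).Coprime (X i').N) →
      (∀ i g, g ∣ (X i).N → g < (X i).N →
        (X i).weight c f g + (lam : ℚ) / 2 < ((X i).n : ℚ) / 2 + 1) →
      IsSmall X c f (∏ i, (X i).N) lam) := by
    intro hco hsm I hI j hj
    have h1 : ∀ i, ∃ u : ℕ, u.Coprime (X i).N ∧ u * j i ≡ (j i).gcd (X i).N [MOD (X i).N] :=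
      fun i => Pool.Agent.N876.FL.exists_gcd_unit (hN0 i) (j i)
    choose u hu hu2 using h1
    obtain ⟨v, hv1, hv2⟩ := Pool.Agent.N876.TC.exists_crt (d := fun i => (X i).N) hN0 hco u hu
    refine ⟨v, hv1, ?_⟩
    have h2 : ∑ i ∈ I, (X i).weight c f (v * j i) + ∑ i ∈ I, (lam : ℚ) / 2 <
        ∑ i ∈ I, (((X i).n : ℚ) / 2 + 1) := by
      rw [← sum_add_distrib]
      refine Finset.sum_lt_sum_of_nonempty hI fun i hi => ?_
      refine lt_of_le_of_lt (le_of_eq ?_) (hsm i ((j i).gcd (X i).N) (Nat.gcd_dvd_right _ _)
        (Pool.Agent.N876.FL.gcd_proper (hN0 i) (hj i hi)))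
      congr 1
      unfold Covering.weight
      congr 1
      refine sum_congr rfl fun k _ => sum_congr rfl fun t _ => ?_
      have h2 : v * j i * (X i).a k * c ^ t ≡ (j i).gcd (X i).N * (X i).a k * c ^ t
          [MOD (X i).N] :=
        ((((hv2 i).mul_right _).trans (hu2 i)).mul_right _).mul_right _
      rw [h2]
    refine lt_of_le_of_lt ?_ h2
    rw [sum_const, nsmul_eq_mul]
    have h3 : (1 : ℚ) ≤ I.card := by exact_mod_cast hI.card_pos
    have h4 : (0 : ℚ) ≤ (lam : ℚ) / 2 := by positivity
    nlinarith
  have h3 : ∀ i, c % (X i).N = 1 → ∀ j,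
      (X i).weight c f j = ((∑ k, (j * (X i).a k) % (X i).N : ℕ) : ℚ) / (X i).N := by
    intro i hc j
    have hN := (hX i).two_le
    have hN' : ((X i).N : ℚ) ≠ 0 := by exact_mod_cast (by omega : (X i).N ≠ 0)
    have hf' : (f : ℚ) ≠ 0 := by exact_mod_cast hf0.ne'
    unfold Covering.weight
    have h1 : ∀ k, ∑ t ∈ range f, (((j * (X i).a k * c ^ t) % (X i).N : ℕ) : ℚ) =
        f * (((j * (X i).a k) % (X i).N : ℕ) : ℚ) := by
      intro k
      have h2 : ∀ t ∈ range f, (((j * (X i).a k * c ^ t) % (X i).N : ℕ) : ℚ) =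
          (((j * (X i).a k) % (X i).N : ℕ) : ℚ) := by
        intro t _
        have h3 : c ^ t ≡ 1 [MOD (X i).N] := by
          have h4 : c ≡ 1 [MOD (X i).N] := by
            show c % (X i).N = 1 % (X i).N
            rw [hc, Nat.mod_eq_of_lt (by omega)]
          simpa using h4.pow t
        have h5 : j * (X i).a k * c ^ t ≡ j * (X i).a k [MOD (X i).N] := by
          have h6 := h3.mul_left (j * (X i).a k)
          rwa [mul_one] at h6
        rw [h5]
      rw [sum_congr rfl h2, sum_const, card_range, nsmul_eq_mul]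
    rw [sum_congr rfl fun k _ => h1 k, ← mul_sum]
    push_cast
    rw [mul_div_mul_left _ _ hf']
  refine ⟨?_, h2, ?_⟩
  · intro N hN hdN hsmall K W _ _ _ _ _ dim Φ g hcov T _ _ deg B _ _ _ ΦZ hdim m hm
    have hq0 : Fintype.card κ ≠ 0 := Fintype.card_ne_zero
    have hqc : (Fintype.card κ : ℂ) ≠ 0 := by exact_mod_cast hq0
    have hsmall' : ∀ I : Finset ι, I.Nonempty → Pool.Agent.N876.UV.SmallI c f N lam
        (fun i => (X i).N) (fun i => (X i).n) (fun i => (X i).s) (fun i => (X i).a) I := by
      intro I hI j hj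
      obtain ⟨u, hu, hlt⟩ := hsmall I hI j hj
      refine ⟨u, hu, Pool.Agent.N876.UV.weight_conv' hf0 hN hdN I
        (fun i => ∑ k, ∑ t ∈ range f, (u * j i * (X i).a k * c ^ t) % (X i).N) ?_⟩
      refine lt_of_le_of_lt (le_of_eq ?_) hlt
      congr 1
      refine sum_congr rfl fun i _ => ?_
      unfold Covering.weight
      push_cast
      rfl
    have hcov' : ∀ i, Pool.Agent.N876.TC.IsCov (X i).N (X i).l (X i).a (X i).z (Φ i) (g i) :=
      fun i => ⟨(hcov i).commute, (hcov i).order, (hcov i).invariants,
        fun L _ _ _ t => (hcov i).lefschetz L t⟩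
    have hα0 : ∀ i, ¬ (Φ i).HasEigenvalue 0 := by
      intro i h
      obtain ⟨x, hx⟩ := h.exists_hasEigenvector
      have h1 := Module.End.mem_eigenspace_iff.1 hx.1
      rw [zero_smul] at h1
      exact hx.2 ((hcov i).injective x h1)
    have hres : Pool.Agent.U926.FM.NoResG (Fintype.card κ) (fun i => (X i).n) deg Φ ΦZ :=
      Pool.Agent.U926.FM.nores_mixed hN (fun i => (hX i).two_le) hdN κ hf
        (fun i => (hX i).root) (fun i => (X i).l) (fun i => (X i).a)
        (fun i => (hX i).coprime) hcov' hα0 hsmall' hdim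
    have hαalg : ∀ i α, (Φ i).HasEigenvalue α → IsAlgebraic ℚ α := by
      intro i α hα
      have hne : α ≠ 0 := by
        rintro rfl
        exact hα0 i hα
      obtain ⟨hx, -⟩ := Pool.Agent.N876.FL.exists_small' hN (fun i => (hX i).two_le) hdN κ hf
        (fun i => (hX i).root) (fun i => (X i).l) (fun i => (X i).a)
        (fun i => (hX i).coprime) hcov' (hsmall' {i} (singleton_nonempty i)) (α := fun _ => α)
        (by intro i' hi'; rw [mem_singleton] at hi'; subst hi'; exact hα)
        (fun _ _ => hne)
      exact mem_algebraicClosure_iff.1 (hx i (mem_singleton_self i))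
    have hβalg : ∀ t β, (ΦZ t).HasEigenvalue β → IsAlgebraic ℚ β := by
      intro t β hβ
      have h1 := (hdim t β hβ).tower_top (A := ℚ)
      have h2 : β = β / (Fintype.card κ : ℂ) ^ (deg t - lam) *
          (Fintype.card κ : ℂ) ^ (deg t - lam) := by
        rw [div_mul_cancel₀ _ (pow_ne_zero _ hqc)]
      rw [h2]
      exact h1.isAlgebraic.mul ((isAlgebraic_natCast _).pow _)
    have hmain : ∀ (w : ℕ) (v : ProductHomology K W B),
        IsGeneralisedTateClass (Fintype.card κ) m (IsOfDegreeX dim (fun i => (X i).n) deg)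
            (productFrobenius (Fintype.card κ) dim Φ ΦZ) w v ↔
          IsCombination product (fun k : ∀ i, K i => ∑ i, dim i (k i))
            (IsGeneralisedTateClass (Fintype.card κ) m (IsOfDegreeZ deg) (frobeniusZ ΦZ)) w v := by
      intro w v
      constructor
      · rintro ⟨hv1, hv2⟩
        obtain ⟨h1, h2, h3⟩ := Pool.Agent.U926.FM.gen_graded hq0 hres hαalg hβalg dim hm w
          (fun θ => gr_degree hv1 θ) hv2
        unfold IsCombination
        rw [h1]
        refine Submodule.sum_mem _ fun k _ => ?_
        rcases le_or_gt (∑ i, dim i (k i)) w with hk | hk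
        · refine Submodule.subset_span ⟨k, _, hk, ⟨fun t ht => h2 k t ?_, h3 k hk⟩, rfl⟩
          change deg t ≠ 2 * (w - ∑ i, dim i (k i)) at ht
          omega
        · have h4 : Pool.Agent.N876.TC.cmp k v = 0 := by
            funext t
            exact h2 k t (by omega)
          rw [h4, TensorProduct.tmul_zero]
          exact Submodule.zero_mem _
      · intro hv
        unfold IsCombination at hv
        induction hv using Submodule.span_induction with
        | mem t ht =>
          obtain ⟨k, b, h1, ⟨h2, h3⟩, rfl⟩ := ht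
          refine ⟨product_degree h1 h2, ?_⟩
          have h4 := Pool.Agent.N876.TC.ev_gen (Fintype.card κ : ℂ) dim Φ (frobeniusZ ΦZ) k m h3
          have h5 : ((Fintype.card κ : ℂ) ^ (∑ i, dim i (k i))) ^ m *
              (Fintype.card κ : ℂ) ^ (m * (w - ∑ i, dim i (k i))) =
              (Fintype.card κ : ℂ) ^ (m * w) := by
            rw [← pow_mul, ← pow_add, mul_comm _ m, ← mul_add, Nat.add_sub_cancel' h1]
          have h6 : ((Fintype.card κ : ℂ) ^ (∑ i, dim i (k i))) ^ m *
              (Fintype.card κ : ℂ) ^ (m * (w - (fun k : ∀ i, K i => ∑ i, dim i (k i)) k)) =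
              (Fintype.card κ : ℂ) ^ (m * w) := h5
          rw [h6] at h4
          exact h4
        | zero => exact ⟨Submodule.zero_mem _, Submodule.zero_mem _⟩
        | add x y _ _ hx hy =>
          exact ⟨Submodule.add_mem _ hx.1 hy.1, Submodule.add_mem _ hx.2 hy.2⟩
        | smul r x _ hx =>
          exact ⟨Submodule.smul_mem _ r hx.1, Submodule.smul_mem _ r hx.2⟩
    have hpow : ∀ (w : ℕ) (k : ∀ i, K i), ∑ i, dim i (k i) ≤ w →
        ((Fintype.card κ : ℂ) ^ (∑ i, dim i (k i))) ^ m *
            (Fintype.card κ : ℂ) ^ (m * (w - ∑ i, dim i (k i))) =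
            (Fintype.card κ : ℂ) ^ (m * w) := by
      intro w k h1
      rw [← pow_mul, ← pow_add, mul_comm _ m, ← mul_add, Nat.add_sub_cancel' h1]
    have hss : ∀ w : ℕ, IsSemisimpleAt (V := ProductHomology K W B) (Fintype.card κ) m
        (IsOfDegreeX dim (fun i => (X i).n) deg) (productFrobenius (Fintype.card κ) dim Φ ΦZ) w ↔
      ∀ k : ∀ i, K i, ∑ i, dim i (k i) ≤ w →
        IsSemisimpleAt (V := ∀ t, B t) (Fintype.card κ) m (IsOfDegreeZ deg) (frobeniusZ ΦZ)
          (w - ∑ i, dim i (k i)) := ?_
    · refine ⟨hmain, hss, fun hpt => ⟨fun h j => ?_, fun h w => (hss w).2 fun k _ => h _⟩⟩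
      choose k hk using hpt
      have h0 : ∑ i, dim i (k i) = 0 := sum_eq_zero fun i _ => hk i
      have h1 := (hss j).1 (h j) k (by omega)
      rwa [h0, Nat.sub_zero] at h1
    intro w
    constructor
    · intro h k hk b hb
      have h1 := h (product k b) ((hmain w _).2 (Submodule.subset_span ⟨k, b, hk, hb, rfl⟩))
      rw [pair_pow, ← hpow w k hk, mul_smul] at h1
      have h2 := smul_right_injective _ (pow_ne_zero m (pow_ne_zero _ hqc)) h1
      have h3 : (product k ((frobeniusZ ΦZ ^ m) b) : ProductHomology K W B) =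
          product k ((Fintype.card κ : ℂ) ^ (m * (w - ∑ i, dim i (k i))) • b) := by
        rw [h2]
        unfold product
        rw [TensorProduct.tmul_smul]
      exact product_injective k h3
    · intro h v hv
      have h1 := (hmain w v).1 hv
      unfold IsCombination at h1
      clear hv
      induction h1 using Submodule.span_induction with
      | mem t ht =>
        obtain ⟨k, b, h1, h2, rfl⟩ := ht
        have h3 := h k h1 b h2
        rw [pair_pow, h3, ← hpow w k h1, mul_smul]
        congr 1
        unfold product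
        rw [TensorProduct.tmul_smul]
      | zero => rw [map_zero, smul_zero]
      | add x y _ _ hx hy => rw [map_add, hx, hy, smul_add]
      | smul r x _ hx => rw [map_smul, hx, smul_comm]
  · intro hp hne hc hsum hn
    refine h2 (fun i i' hii => (Nat.coprime_primes (hp i) (hp i')).2 (hne i i' hii)) ?_
    intro i g hg hlt
    have hg1 : g = 1 := by
      rcases (Nat.dvd_prime (hp i)).1 hg with h | h
      · exact h
      · omega
    rw [h3 i (hc i), hg1]
    have h4 : (∑ k, (1 * (X i).a k) % (X i).N) ≤ (X i).N := by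
      refine le_trans (sum_le_sum fun k _ => Nat.mod_le _ _) ?_
      simp only [one_mul]
      exact (hsum i).le
    have hN' : (0 : ℚ) < (X i).N := by exact_mod_cast hN0 i
    have h5 : (((∑ k, (1 * (X i).a k) % (X i).N : ℕ) : ℚ)) / (X i).N ≤ 1 := by
      rw [div_le_one hN']
      exact_mod_cast h4
    have h6 : (lam : ℚ) < (X i).n := by exact_mod_cast hn i
    linarith

end Pool.Agent.Results.MP_16ef92_ag.CoveringsTimesAnyVariety
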