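import Pool.Agent.U436.NT.Cover

/-!
# Coverings of affine space given by norms and traces of polynomials in one variable

Let `k` be an algebraically closed field of characteristic `p > 0` (for the problem: an algebraic closure of a
finite field), `d ≥ 1`, `f 1, …, f r` and `g 1, …, g s` ARBITRARY polynomials in one variable over `k`, `e i ≥ 1`
and `n i ≥ 1`. For the general monic polynomial `P = X ^ d + a (d-1) X ^ (d-1) + … + a 0` the sum `Tr f i` of the
values of `f i` at the `d` roots of `P` and the product `Nm g i` of the values of `g i` are polynomials `F i`, `G i`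
in the coefficients `a 0, …, a (d-1)` (combinations of power sums, and resultants). Let `Y` be the variety in the
affine space of dimension `d + r + s` given by the `r + s` equations

  `z i ^ (p ^ e i) - z i = F i (a)`,   `y i ^ n i = G i (a)`,

a covering of affine space of dimension `d`, branched along the hypersurfaces `Res (P, g i) = 0` (in general it is
singular, and it is not normal in general), and `C` the curve `w i ^ (p ^ e i) - w i = f i (t)`,
`v i ^ n i = g i (t)`.

We show that `(t j, w j, v j) ↦ (coefficients of ∏ (X - t j), ∑ w j, ∏ v j)` maps `C ^ d` onto `Y` and that its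
fibres are the orbits of the finite group of the triples of a permutation of the factors, `d`-tuples of elements of
the groups of the `α` with `α ^ (p ^ e i) = α` with sum zero and `d`-tuples of `n i`-th roots of unity with
product one.

The map is finite. So `H_c(Y)` (coefficients `ℚ_ℓ`) is the space of the invariants of this group in
`H_c(C) ^ (⊗ d)`. The Frobenius acts semisimply on the compactly supported cohomology of every curve (the weights
0 and 1 in `H¹_c` are different, and the part of weight one is semisimple by Weil), so it is semisimple on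
`H_c(Y)`, and `SS_i(Y)` holds for all `i` (not formalised).
-/

set_option autoImplicit false

namespace Pool.Agent.Results.MP_16ef92_ag.NormTraceCovers

open Pool.Agent.U436.NT Polynomial

theorem result (k : Type) [Field k] [IsAlgClosed k] (p : ℕ) [Fact p.Prime] [CharP k p] (d r s : ℕ) (hd : 1 ≤ d)
    (f : Fin r → k[X]) (e : Fin r → ℕ) (he : ∀ i, e i ≠ 0) (g : Fin s → k[X]) (n : Fin s → ℕ)
    (hn : ∀ i, n i ≠ 0) :
    (∀ a : Fin d → k, ∃ t : Fin d → k, cf t = a) ∧
    ∃ (F : Fin r → MvPolynomial (Fin d) k) (G : Fin s → MvPolynomial (Fin d) k),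
      (∀ (t : Fin d → k) i, MvPolynomial.eval (cf t) (F i) = ∑ j, (f i).eval (t j)) ∧
      (∀ (t : Fin d → k) i, MvPolynomial.eval (cf t) (G i) = ∏ j, (g i).eval (t j)) ∧
      (∀ u : Fin d → k × (Fin r → k) × (Fin s → k), (∀ j, u j ∈ curve p f e g n) →
        prodMap u ∈ variety p F e G n) ∧
      (∀ x ∈ variety p F e G n, ∃ u : Fin d → k × (Fin r → k) × (Fin s → k),
        (∀ j, u j ∈ curve p f e g n) ∧ prodMap u = x) ∧
      (∀ u u' : Fin d → k × (Fin r → k) × (Fin s → k), (∀ j, u j ∈ curve p f e g n) →
        (∀ j, u' j ∈ curve p f e g n) →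
        (prodMap u = prodMap u' ↔
          ∃ (σ : Equiv.Perm (Fin d)) (α : Fin d → Fin r → k) (β : Fin d → Fin s → k),
            (∀ j i, α j i ^ p ^ e i = α j i) ∧ (∀ i, ∑ j, α j i = 0) ∧ (∀ j i, β j i ^ n i = 1) ∧
              (∀ i, ∏ j, β j i = 1) ∧
                ∀ j, u' j = ((u (σ j)).1, fun i => (u (σ j)).2.1 i + α j i,
                  fun i => β j i * (u (σ j)).2.2 i))) := by
  refine ⟨exists_cf, ?_⟩
  choose F hF using fun i => exists_trace (d := d) (f i)
  choose G hG using fun i => exists_norm (d := d) (g i)
  exact ⟨F, G, fun t i => hF i t, fun t i => hG i t, fun u hu => prodMap_mem (fun t i => hF i t)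
    (fun t i => hG i t) hu, fun x hx => prodMap_surj hd he hn (fun t i => hF i t) (fun t i => hG i t) hx,
    fun u u' hu hu' => prodMap_eq_iff hn hu hu'⟩

end Pool.Agent.Results.MP_16ef92_ag.NormTraceCovers
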