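import Pool.Agent.U173.SS.Main

/-!
# Semisimplicity of the Frobenius eigenvalue `1` on the étale homology of the products of arbitrary
varieties with varieties whose slopes have separated denominators

Let `k` be a finite field with `q = p ^ m` elements. Let `X ↦ H(X)` be the `ℓ`-adic étale homology
(coefficients `K`, an algebraic closure of `ℚ_ℓ`) of the varieties over `k`, proper or not, smooth or
not, with the homology `gr X j` of degree `j`, the Künneth formula and the Frobenius `F`, normalised such
that the classes of cycles of dimension `d` in degree `2 d` are multiplied by `q ^ d` (`Homology`,
`Homology.IsStandard`). The statement `SS_j(X)` of the question over the extension of `k` of degree `m'` is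
`Homology.Semisimple`: the generalised eigenvectors of `F ^ m'` for `q ^ (m' j)` in degree `2 j` are
eigenvectors.

Let `X_i` be **arbitrary** smooth projective varieties over `k`, for `i` in any index set, whose
homology is the direct sum of the lines of classes `e_k` of degree `2 d_k`, eigenvectors of `F` for
`q ^ (d_k)` (for instance classes of cycles of dimension `d_k`; the coordinates are given by the classes
of dual cycles), and of a stable part `W_i`, such that for a prime power `R_i` all eigenvalues of `F` on
`W_i` have, for some embedding of the algebraic numbers into an algebraic closure of `ℚ_p`, a slope with
a denominator divisible by `R_i` (`Homology.IsFactor`). **The Frobenius need not be semisimple on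
`W_i`.**

Let `U` be **any** variety over `k`, for instance a singular or an open one. Suppose that the `X_j`,
`j ≠ i`, and `U` avoid the denominator `R_i` (`Avoids`): every eigenvalue of `F` is the product of a
power of `q` and of numbers with slopes with denominators not divisible by `R_i`, and of eigenvalues of
the Frobenius on cohomology groups of dimension less than `2 R_i` of smooth projective varieties over `k`
(`R_i > 2`; `IsSmall`). For example (hyperresolutions by smooth projective varieties, de Jong, Deligne):
* `U` is any variety of dimension at most one whose components have geometric genus less than `R_i`, if
  `R_i > 2`;
* `U` is any variety which is paved by pieces whose eigenvalues occur in smooth projective varieties with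
  Betti numbers less than `2 R_i`, or in ordinary varieties, or in products of such varieties.

**Theorem.** Let `V` be the product of finitely many different `X_i`.
* For all `w` and all extensions of `k` **the generalised Tate classes of dimension `w` on `V × U` are the
  linear combinations of the products of classes `e_k` on the `X_i`, of total dimension `d`, and of
  generalised Tate classes of dimension `w - d` on `U`.**
* **`SS_w(V × U)` is equivalent to the statements `SS_{w-d}(U)` for all sums `d ≤ w` of the dimensions of
  classes `e_k`, one on each factor** (`dimensions`).
* For every `n` the statements `SS_w(V × U)`, `w ≤ n`, are equivalent to the statements `SS_w(U)`,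
  `w ≤ n`. So the answer to Q1 for `V × U` is the same as for `U`, and it is positive for instance if `U`
  is a curve, an abelian variety, or an open part or a singular quotient of such a variety.

Examples. Let `X_i` be a K3 surface of finite height `h_i`, with all cycles defined over `k`, where
`h_i` is divisible by a prime power `R_i` which does not divide the `h_j`, `j ≠ i`. The eigenvalues on
the transcendental part are conjugate over `ℚ` to numbers of slope `1 - 1 / h_i` (Zarhin; Yu and Yui). Or
let `X_i` be the product of fewer than `h` K3 surfaces of the same prime height `h`, isogenous or not, if
its Tate classes are defined over `k`.

The proof. Let `x` be a generalised Tate class on `X_i × Y`, `Y` the product of other `X_j` and `U`. If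
its component in `W_i ⊗ H(Y)` is not zero, there are eigenvalues `α` on `W_i` and `β` on `H(Y)` such
that `(α β) ^ m'` is a power of `q`. But `β` is a product of eigenvalues on the `H(X_j)` and on `H(U)`,
and so all its slopes have denominators which are not divisible by the prime power `R_i`: for the
small factors by the theorem of Manin that the multiplicity of a slope is divisible by its denominator,
and by the symmetry of slopes; a contradiction. So `x` is the sum of the products of the `e_k` and of its
coordinates, which are generalised Tate classes on `Y`.

The nearest theorem for this problem is `CoveringsTimesAnyVariety` (helper926): there the `X_i` are cyclic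
coverings of projective spaces branched along hyperplanes and `U` is of small dimension. Here the
`X_i` are arbitrary, and there is no condition on the dimension of `U`; the arithmetic is another one
(`U173/DN`, `U173/LD`, `U173/SS`). The same principle is used in my `MP_bbf028_ag.SeparatedDenominators`
for the log Tate conjecture. The known facts on Frobenius eigenvalues of smooth projective varieties
(rational slopes, multiplicities, symmetry) are hypotheses in the definition `IsNewton`.

helper173; the products with classes and the slant products are those of helper222 (`U222/CR`, `U222/SM`).
-/

set_option autoImplicit false

open Finset TensorProduct

namespace Pool.Agent.Results.MP_16ef92_ag.SeparatedDenominators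

open Pool.Agent.U173.PT Pool.Agent.U173.SS

/-- **Semisimplicity of the Frobenius eigenvalue `1` on the étale homology of the products of arbitrary
varieties with varieties whose slopes have separated denominators.** -/
theorem result {K 𝒱 : Type} {H : 𝒱 → Type} [Field K] [IsAlgClosed K] [CharZero K] [Mul 𝒱]
    [∀ X, AddCommGroup (H X)] [∀ X, Module K (H X)] [∀ X, FiniteDimensional K (H X)]
    (T : Homology K H) (hT : T.IsStandard)
    -- the characteristic `p`, the number `q = p ^ m` and an embedding of the algebraic numbers
    (v : Place Unit)
    -- the varieties `X_i` and the denominators
    {ι : Type} (R : ι → ℕ) (X : ι → 𝒱) {I : ι → Type} [∀ i, Fintype (I i)]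
    [∀ i, DecidableEq (I i)] (dim : ∀ i, I i → ℕ) (e : ∀ i, I i → H (X i))
    (l : ∀ i, I i → H (X i) →ₗ[K] K)
    -- the variety `U`
    (U : 𝒱) (h : T.IsSystem v R X U dim e l) :
    ∀ L : List ι, L.Nodup → T.Conclusions (v.p ^ v.m) X U dim e L :=
  fun L hL => main hT h L hL

end Pool.Agent.Results.MP_16ef92_ag.SeparatedDenominators
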